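import Mathlib
import Pool.Agent.Helper78.LK.Goals

/-! Packet LK-APP (MP_5a63b6_lc). -/

set_option autoImplicit false

namespace Pool.Agent.Helper81.LK

open Pool.Agent.Helper50.KP Pool.Agent.Helper78.LK

theorem app_iff (D : Dat) (W W' : DW) : ∀ (A C : List Lb) (q : ℤ), Run D (W ++ W') A C q ↔
    ∃ B q1 q2, Run D W A B q1 ∧ Run D W' B C q2 ∧ q = q1 + q2 := by
  induction W with
  | nil =>
    intro A C q
    constructor
    · intro h
      exact ⟨A, 0, q, Run.nil A, h, by ring⟩
    · rintro ⟨B, q1, q2, h1, h2, h3⟩
      cases h1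
      simpa [h3] using h2
  | cons e W ih =>
    intro A C q
    constructor
    · intro h
      rw [List.cons_append] at h
      cases h with
      | cons hk hp hr =>
        obtain ⟨B, q1, q2, h1, h2, h3⟩ := (ih _ _ _).1 hr
        exact ⟨B, _, q2, Run.cons hk hp h1, h2, by rw [h3]; ring⟩
    · rintro ⟨B, q1, q2, h1, h2, h3⟩
      cases h1 with
      | cons hk hp hr =>
        rw [List.cons_append, h3, add_assoc]
        exact Run.cons hk hp ((ih _ _ _).2 ⟨B, _, q2, hr, h2, rfl⟩)

theorem pc_len {D : Dat} {K : Kind} {x : ℕ} {S S' : List Lb} {p : ℤ} (h : Pc D K x S S' p) :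
    S.length = K.i ∧ S'.length = K.o := by
  cases h <;> exact ⟨rfl, rfl⟩

theorem run_str {D : Dat} {W : DW} {A B : List Lb} {q : ℤ} (h : Run D W A B q) :
    str (und W) A.length = some B.length := by
  induction h with
  | nil L => rfl
  | @cons K k x W A B S S' L p q hk hp hr ih =>
    obtain ⟨h1, h2⟩ := pc_len hp
    have e : str (und ((K, k, x) :: W)) (A ++ S ++ B).length =
      if k + K.i ≤ (A ++ S ++ B).length then
        str (und W) ((A ++ S ++ B).length - K.i + K.o) else none := rfl
    have l1 : (A ++ S ++ B).length = k + K.i + B.length := by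
      simp only [List.length_append, h1, hk]
    have l2 : (A ++ S' ++ B).length = (A ++ S ++ B).length - K.i + K.o := by
      rw [l1]
      simp only [List.length_append, h2, hk]
      omega
    rw [e, if_pos (by rw [l1]; omega), ← l2]
    exact ih

theorem gAPP : APP :=
  ⟨fun D W W' A C q => app_iff D W W' A C q, fun _ _ _ _ _ h => run_str h⟩

end Pool.Agent.Helper81.LK
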